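import Pool.Agent.Y327.XS.Op

/-!
# A family of smooth functions `g_m` with `((x·∇) + 1 - m) g_{m+1} = g_m`
-/

set_option autoImplicit false
set_option linter.unusedSectionVars false

open Set Filter Topology MeasureTheory
open scoped ContDiff Interval

noncomputable section

namespace Pool.Agent.Y327.XS

variable {E : Type*} [NormedAddCommGroup E] [InnerProductSpace ℝ E] [FiniteDimensional ℝ E]

/-- weighted averages along rays -/
def B (w : ℝ → ℝ) (b : E → ℝ) (x : E) : ℝ := ∫ s in (1 : ℝ)..2, w s * b (s • x)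

lemma B_hasFDerivAt {w : ℝ → ℝ} (hw : ContinuousOn w (Icc 1 2)) {b : E → ℝ}
    (hb : ContDiff ℝ ∞ b) (x : E) :
    HasFDerivAt (B w b) (∫ s in (1 : ℝ)..2, (w s * s) • fderiv ℝ b (s • x)) x := by
  have hI : uIoc (1 : ℝ) 2 ⊆ Icc 1 2 := by
    rw [uIoc_of_le (by norm_num)]
    exact Ioc_subset_Icc_self
  have hw' : ContinuousOn w (uIoc (1 : ℝ) 2) := hw.mono hI
  obtain ⟨C, hC⟩ := (isCompact_closedBall (0 : E) (2 * (‖x‖ + 1))).exists_bound_of_continuousOn
    ((smooth_fderiv hb).continuous.continuousOn)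
  have hfc : Continuous (fderiv ℝ b) := (smooth_fderiv hb).continuous
  refine intervalIntegral.hasFDerivAt_integral_of_dominated_of_fderiv_le
    (F := fun x s => w s * b (s • x)) (F' := fun x s => (w s * s) • fderiv ℝ b (s • x))
    (s := Metric.ball x 1) (bound := fun s => |w s| * 2 * C) (Metric.ball_mem_nhds x one_pos)
    ?_ ?_ ?_ ?_ ?_ ?_
  · refine Eventually.of_forall fun y => ?_
    refine ContinuousOn.aestronglyMeasurable ?_ measurableSet_uIoc
    exact hw'.mul (hb.continuous.comp (by fun_prop : Continuous fun s : ℝ => s • y)).continuousOn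
  · refine ContinuousOn.intervalIntegrable ?_
    rw [uIcc_of_le (by norm_num)]
    exact hw.mul (hb.continuous.comp (by fun_prop : Continuous fun s : ℝ => s • x)).continuousOn
  · refine ContinuousOn.aestronglyMeasurable ?_ measurableSet_uIoc
    exact (hw'.mul continuousOn_id).smul
      (hfc.comp (by fun_prop : Continuous fun s : ℝ => s • x)).continuousOn
  · refine Eventually.of_forall fun s hs y hy => ?_
    have hs' := hI hs
    have h1 : s • y ∈ Metric.closedBall (0 : E) (2 * (‖x‖ + 1)) := by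
      rw [mem_closedBall_zero_iff, norm_smul, Real.norm_eq_abs,
        abs_of_nonneg (by linarith [hs'.1])]
      have h2 : ‖y‖ ≤ ‖x‖ + 1 := by
        have h3 : ‖y‖ ≤ ‖x‖ + ‖y - x‖ := by
          have : y = x + (y - x) := by abel
          calc ‖y‖ = ‖x + (y - x)‖ := by rw [← this]
            _ ≤ _ := norm_add_le _ _
        have h4 : ‖y - x‖ < 1 := by rwa [mem_ball_iff_norm] at hy
        linarith
      exact mul_le_mul hs'.2 h2 (norm_nonneg _) (by norm_num)
    rw [norm_smul, norm_mul, Real.norm_eq_abs, Real.norm_eq_abs,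
      abs_of_nonneg (by linarith [hs'.1] : (0 : ℝ) ≤ s)]
    have h5 := hC _ h1
    gcongr
    exact hs'.2
  · refine ContinuousOn.intervalIntegrable ?_
    rw [uIcc_of_le (by norm_num)]
    exact (hw.abs.mul continuousOn_const).mul continuousOn_const
  · refine Eventually.of_forall fun s _ y _ => ?_
    have h1 : HasFDerivAt (fun y : E => s • y) (s • ContinuousLinearMap.id ℝ E) y :=
      (hasFDerivAt_id y).const_smul s
    have h2 : HasFDerivAt (fun y : E => b (s • y))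
        ((fderiv ℝ b (s • y)).comp (s • ContinuousLinearMap.id ℝ E)) y :=
      ((diff_of_smooth hb _).hasFDerivAt).comp y h1
    refine (h2.const_mul (w s)).congr_fderiv ?_
    ext v
    simp
    ring

lemma B_fderiv_apply {w : ℝ → ℝ} (hw : ContinuousOn w (Icc 1 2)) {b : E → ℝ}
    (hb : ContDiff ℝ ∞ b) (x v : E) :
    fderiv ℝ (B w b) x v = B (fun s => w s * s) (fun y => fderiv ℝ b y v) x := by
  rw [(B_hasFDerivAt hw hb x).fderiv]
  have hfc : Continuous (fderiv ℝ b) := (smooth_fderiv hb).continuous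
  have hint : IntervalIntegrable (fun s : ℝ => (w s * s) • fderiv ℝ b (s • x)) volume 1 2 := by
    refine ContinuousOn.intervalIntegrable ?_
    rw [uIcc_of_le (by norm_num)]
    exact (hw.mul continuousOn_id).smul
      (hfc.comp (by fun_prop : Continuous fun s : ℝ => s • x)).continuousOn
  rw [ContinuousLinearMap.intervalIntegral_apply hint]
  rfl

lemma B_smooth_nat (k : ℕ) : ∀ {w : ℝ → ℝ}, ContinuousOn w (Icc 1 2) → ∀ {b : E → ℝ},
    ContDiff ℝ ∞ b → ContDiff ℝ k (B w b) := by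
  induction k with
  | zero =>
    intro w hw b hb
    rw [Nat.cast_zero, contDiff_zero]
    exact continuous_iff_continuousAt.2 fun x => (B_hasFDerivAt hw hb x).continuousAt
  | succ k ih =>
    intro w hw b hb
    rw [Nat.cast_succ, contDiff_succ_iff_fderiv_apply]
    refine ⟨fun x => (B_hasFDerivAt hw hb x).differentiableAt, by simp, fun v => ?_⟩
    have h1 : (fun x => fderiv ℝ (B w b) x v)
        = B (fun s => w s * s) (fun y => fderiv ℝ b y v) := by
      funext x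
      exact B_fderiv_apply hw hb x v
    rw [h1]
    exact ih (hw.mul continuousOn_id) (smooth_fderiv_apply hb v)

lemma B_smooth {w : ℝ → ℝ} (hw : ContinuousOn w (Icc 1 2)) {b : E → ℝ}
    (hb : ContDiff ℝ ∞ b) : ContDiff ℝ ∞ (B w b) := by
  rw [contDiff_infty]
  intro k
  exact B_smooth_nat k hw hb

/-- the weights -/
def wt (m : ℕ) (s : ℝ) : ℝ := -(s ^ (-(m : ℤ)))

lemma wt_cont (m : ℕ) : ContinuousOn (wt m) (Icc 1 2) := by
  unfold wt
  refine ContinuousOn.neg ?_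
  refine continuousOn_id.zpow₀ _ ?_
  intro s hs
  left
  have := hs.1
  simp only [id]
  intro h
  linarith

lemma B_euler (m : ℕ) {b : E → ℝ} (hb : ContDiff ℝ ∞ b) (x : E) :
    R 0 m (B (wt m) b) x = b x - 2 * ((2 : ℝ) ^ m)⁻¹ * b ((2 : ℝ) • x) := by
  have hfc : Continuous (fderiv ℝ b) := (smooth_fderiv hb).continuous
  unfold R
  rw [sub_zero, B_fderiv_apply (wt_cont m) hb]
  unfold B
  have hi1 : IntervalIntegrable (fun s : ℝ => wt m s * s * fderiv ℝ b (s • x) x) volume 1 2 := by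
    refine ContinuousOn.intervalIntegrable ?_
    rw [uIcc_of_le (by norm_num)]
    exact ((wt_cont m).mul continuousOn_id).mul
      ((hfc.comp (by fun_prop : Continuous fun s : ℝ => s • x)).clm_apply
        continuous_const).continuousOn
  have hi2 : IntervalIntegrable (fun s : ℝ => wt m s * b (s • x)) volume 1 2 := by
    refine ContinuousOn.intervalIntegrable ?_
    rw [uIcc_of_le (by norm_num)]
    exact (wt_cont m).mul
      (hb.continuous.comp (by fun_prop : Continuous fun s : ℝ => s • x)).continuousOn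
  rw [← intervalIntegral.integral_const_mul, ← intervalIntegral.integral_add hi1
    (hi2.const_mul _)]
  have hd : ∀ s ∈ uIcc (1 : ℝ) 2, HasDerivAt (fun s : ℝ => -(s ^ (1 - (m : ℤ))) * b (s • x))
      (wt m s * s * fderiv ℝ b (s • x) x + (1 - (m : ℝ)) * (wt m s * b (s • x))) s := by
    intro s hs
    rw [uIcc_of_le (by norm_num)] at hs
    have hs0 : s ≠ 0 := by
      have := hs.1
      intro h
      linarith
    have h1 := (hasDerivAt_zpow (1 - (m : ℤ)) s (Or.inl hs0)).neg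
    have h2 : HasDerivAt (fun s : ℝ => s • x) x s := by
      simpa using (hasDerivAt_id s).smul_const x
    have h3 : HasDerivAt (fun s : ℝ => b (s • x)) (fderiv ℝ b (s • x) x) s :=
      ((diff_of_smooth hb _).hasFDerivAt).comp_hasDerivAt s h2
    refine (h1.mul h3).congr_deriv ?_
    have e1 : s ^ (1 - (m : ℤ) - 1) = s ^ (-(m : ℤ)) := by congr 1; ring
    have e2 : s ^ (1 - (m : ℤ)) = s ^ (-(m : ℤ)) * s := by
      rw [← zpow_add_one₀ hs0]; congr 1; ring
    unfold wt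
    rw [e1, Pi.neg_apply, e2]
    push_cast
    ring
  rw [intervalIntegral.integral_eq_sub_of_hasDerivAt hd (hi1.add (hi2.const_mul _))]
  have e3 : (2 : ℝ) ^ (1 - (m : ℤ)) = 2 * ((2 : ℝ) ^ m)⁻¹ := by
    rw [zpow_sub₀ (by norm_num), zpow_one, zpow_natCast, div_eq_mul_inv]
  rw [e3]
  simp
  ring

/-- sets that contain with a point the segment to the origin -/
def Star (K : Set E) : Prop := ∀ x, x ∉ K → ∀ s : ℝ, 1 ≤ s → s • x ∉ K

lemma Ok.B {K : Set E} (hK : Star K) {b : E → ℝ} (hb : Ok K b) {w : ℝ → ℝ}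
    (hw : ContinuousOn w (Icc 1 2)) : Ok K (B w b) := by
  refine ⟨B_smooth hw hb.1, fun x hx => ?_⟩
  unfold XS.B
  rw [intervalIntegral.integral_congr (g := fun _ => (0 : ℝ))]
  · simp
  · intro s hs
    rw [uIcc_of_le (by norm_num)] at hs
    show w s * b (s • x) = 0
    rw [hb.2 _ (hK x hx s hs.1), mul_zero]

/-- the functions `b_m` -/
def bb (β : E → ℝ) : ℕ → E → ℝ
  | 0 => β
  | m + 1 => B (wt m) (bb β m)

lemma bb_ok {K : Set E} (hK : Star K) {β : E → ℝ} (hβ : Ok K β) (m : ℕ) : Ok K (bb β m) := by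
  induction m with
  | zero => exact hβ
  | succ m ih => exact ih.B hK (wt_cont m)

/-- the coefficients -/
def cc : ℕ → ℝ
  | 0 => 1
  | k + 1 => -4 * cc k / (2 ^ (k + 1) - 1)

lemma cc_rel (k : ℕ) : cc (k + 1) * (2 ^ (k + 1) - 1) = -4 * cc k := by
  have h : (2 : ℝ) ^ (k + 1) - 1 ≠ 0 := by
    have h1 : (1 : ℝ) < 2 ^ (k + 1) := one_lt_pow₀ (by norm_num) (by simp)
    linarith
  show -4 * cc k / (2 ^ (k + 1) - 1) * (2 ^ (k + 1) - 1) = _
  rw [div_mul_cancel₀ _ h]

lemma cc_summable (A : ℝ) (hA : 0 ≤ A) : Summable fun k => |cc k| * A ^ k := by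
  refine summable_of_ratio_norm_eventually_le (r := 1 / 2) (by norm_num) ?_
  obtain ⟨N, hN⟩ := pow_unbounded_of_one_lt (8 * A + 1) (by norm_num : (1 : ℝ) < 2)
  filter_upwards [eventually_ge_atTop N] with k hk
  have h1 : 8 * A + 1 < 2 ^ (k + 1) :=
    hN.trans_le (pow_le_pow_right₀ (by norm_num) (by omega))
  have h2 : (0 : ℝ) < 2 ^ (k + 1) - 1 := by linarith
  have h3 : |cc (k + 1)| * (2 ^ (k + 1) - 1) = 4 * |cc k| := by
    have := congrArg abs (cc_rel k)
    rw [abs_mul, abs_mul, abs_of_pos h2] at this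
    rw [this]
    norm_num
  have h4 : |cc (k + 1)| * A ≤ 1 / 2 * |cc k| := by
    have h5 : |cc (k + 1)| * (8 * A) ≤ |cc (k + 1)| * (2 ^ (k + 1) - 1) := by
      gcongr
      linarith
    linarith
  rw [norm_mul, norm_mul, norm_pow, norm_pow, Real.norm_eq_abs, Real.norm_eq_abs, abs_abs,
    Real.norm_eq_abs, abs_abs, abs_of_nonneg hA, pow_succ]
  have h6 : 0 ≤ A ^ k := by positivity
  calc |cc (k + 1)| * (A ^ k * A) = (|cc (k + 1)| * A) * A ^ k := by ring
    _ ≤ (1 / 2 * |cc k|) * A ^ k := by gcongr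
    _ = 1 / 2 * (|cc k| * A ^ k) := by ring

lemma Ok.bound {K : Set E} (hKc : IsCompact K) {g : E → ℝ} (hg : Ok K g) (j : ℕ) :
    ∃ C, 0 ≤ C ∧ ∀ x, ‖iteratedFDeriv ℝ j g x‖ ≤ C := by
  have hc : Continuous (iteratedFDeriv ℝ j g) :=
    hg.1.continuous_iteratedFDeriv (by exact_mod_cast le_top)
  obtain ⟨C, hC⟩ := hKc.exists_bound_of_continuousOn hc.continuousOn
  refine ⟨|C|, abs_nonneg _, fun x => ?_⟩
  by_cases hx : x ∈ K
  · exact (hC x hx).trans (le_abs_self C)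
  · have h : g =ᶠ[𝓝 x] fun _ => (0 : ℝ) := by
      filter_upwards [hKc.isClosed.isOpen_compl.mem_nhds hx] with y hy
      exact hg.2 y hy
    have h2 : iteratedFDeriv ℝ j g x = 0 := by
      rw [(h.iteratedFDeriv ℝ j).eq_of_nhds]
      simp
    rw [h2, norm_zero]
    exact abs_nonneg _

lemma norm_iter_scale {g : E → ℝ} (hg : ContDiff ℝ ∞ g) (j : ℕ) {C : ℝ}
    (hC : ∀ x, ‖iteratedFDeriv ℝ j g x‖ ≤ C) (a : ℝ) (x : E) :
    ‖iteratedFDeriv ℝ j (fun x => g (a • x)) x‖ ≤ |a| ^ j * C := by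
  set L : E →L[ℝ] E := a • ContinuousLinearMap.id ℝ E with hL
  have h1 : (fun x => g (a • x)) = g ∘ L := by
    funext x; simp [hL]
  rw [h1, L.iteratedFDeriv_comp_right (hg.of_le (by exact_mod_cast le_top : (j : WithTop ℕ∞) ≤ ∞))
    x le_rfl]
  refine (ContinuousMultilinearMap.norm_compContinuousLinearMap_le _ _).trans ?_
  have h2 : ‖L‖ ≤ |a| := by
    rw [hL, norm_smul, Real.norm_eq_abs]
    exact mul_le_of_le_one_right (abs_nonneg _) ContinuousLinearMap.norm_id_le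
  rw [Finset.prod_const, Finset.card_univ, Fintype.card_fin, mul_comm]
  have h3 := hC (L x)
  have h4 : 0 ≤ C := (norm_nonneg _).trans h3
  gcongr

/-- the summands -/
def term (β : E → ℝ) (m k : ℕ) (x : E) : ℝ :=
  cc k * (((2 : ℝ) ^ k)⁻¹) ^ m * bb β m ((2 : ℝ) ^ k • x)

/-- the functions `g_m` -/
def gg (β : E → ℝ) (m : ℕ) (x : E) : ℝ := ∑' k, term β m k x

lemma term_smooth {K : Set E} (hK : Star K) {β : E → ℝ} (hβ : Ok K β) (m k : ℕ) :
    ContDiff ℝ ∞ (term β m k) := by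
  unfold term
  exact contDiff_const.mul ((bb_ok hK hβ m).1.comp (contDiff_const_smul _))

lemma term_bound {K : Set E} (hKc : IsCompact K) (hK : Star K) {β : E → ℝ} (hβ : Ok K β)
    (m j : ℕ) : ∃ C, 0 ≤ C ∧ ∀ k x, ‖iteratedFDeriv ℝ j (term β m k) x‖
      ≤ C * (|cc k| * (2 ^ j) ^ k) := by
  obtain ⟨C, hC0, hC⟩ := (bb_ok hK hβ m).bound hKc j
  refine ⟨C, hC0, fun k x => ?_⟩
  have h1 : term β m k = fun x => (cc k * (((2 : ℝ) ^ k)⁻¹) ^ m) • bb β m ((2 : ℝ) ^ k • x) := by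
    funext x; rfl
  have h2 : ContDiff ℝ ∞ (fun x : E => bb β m ((2 : ℝ) ^ k • x)) :=
    (bb_ok hK hβ m).1.comp (contDiff_const_smul _)
  rw [h1, iteratedFDeriv_const_smul_apply' (h2.of_le (by exact_mod_cast le_top)).contDiffAt,
    norm_smul]
  have h3 := norm_iter_scale (bb_ok hK hβ m).1 j hC ((2 : ℝ) ^ k) x
  have h4 : ‖cc k * (((2 : ℝ) ^ k)⁻¹) ^ m‖ ≤ |cc k| := by
    rw [norm_mul, Real.norm_eq_abs]
    refine mul_le_of_le_one_right (abs_nonneg _) ?_
    rw [norm_pow, norm_inv, norm_pow]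
    refine pow_le_one₀ (by positivity) ?_
    refine inv_le_one_of_one_le₀ ?_
    exact one_le_pow₀ (by norm_num)
  have h5 : |(2 : ℝ) ^ k| ^ j = (2 ^ j) ^ k := by
    rw [abs_of_pos (by positivity), ← pow_mul, ← pow_mul, mul_comm]
  rw [h5] at h3
  calc _ ≤ |cc k| * ((2 ^ j) ^ k * C) :=
        mul_le_mul h4 h3 (norm_nonneg _) (abs_nonneg _)
    _ = _ := by ring

lemma gg_smooth {K : Set E} (hKc : IsCompact K) (hK : Star K) {β : E → ℝ} (hβ : Ok K β)
    (m : ℕ) : ContDiff ℝ ∞ (gg β m) := by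
  choose C hC0 hC using fun j => term_bound hKc hK hβ m j
  refine contDiff_tsum (v := fun j k => C j * (|cc k| * (2 ^ j) ^ k))
    (fun k => term_smooth hK hβ m k) ?_ ?_
  · intro j _
    exact (cc_summable (2 ^ j) (by positivity)).mul_left _
  · intro j k x _
    exact hC j k x

lemma gg_ok {K : Set E} (hKc : IsCompact K) (hK : Star K) {β : E → ℝ} (hβ : Ok K β)
    (m : ℕ) : Ok K (gg β m) := by
  refine ⟨gg_smooth hKc hK hβ m, fun x hx => ?_⟩
  unfold gg
  have h : ∀ k, term β m k x = 0 := by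
    intro k
    unfold term
    rw [(bb_ok hK hβ m).2 _ (hK x hx _ (one_le_pow₀ (by norm_num))), mul_zero]
  simp [h]

lemma gg_rel {K : Set E} (hKc : IsCompact K) (hK : Star K) {β : E → ℝ} (hβ : Ok K β)
    (m : ℕ) : gg β m = R 0 (m : ℝ) (gg β (m + 1)) := by
  obtain ⟨C0, hC00, hC0⟩ := term_bound hKc hK hβ (m + 1) 0
  obtain ⟨C1, hC10, hC1⟩ := term_bound hKc hK hβ (m + 1) 1
  obtain ⟨D, hD0, hD⟩ := (bb_ok hK hβ m).bound hKc 0
  have hs0 : ∀ x, Summable fun k => term β (m + 1) k x := by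
    intro x
    refine Summable.of_norm_bounded ((cc_summable (2 ^ 0) (by positivity)).mul_left C0) ?_
    intro k
    have := hC0 k x
    rwa [norm_iteratedFDeriv_zero] at this
  have hf : ∀ x, fderiv ℝ (gg β (m + 1)) x = ∑' k, fderiv ℝ (term β (m + 1) k) x := by
    intro x
    refine fderiv_tsum_apply (u := fun k => C1 * (|cc k| * (2 ^ 1) ^ k))
      ((cc_summable (2 ^ 1) (by positivity)).mul_left C1)
      (fun k => diff_of_smooth (term_smooth hK hβ _ k)) ?_ (hs0 0) x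
    intro k y
    have := hC1 k y
    rwa [norm_iteratedFDeriv_one] at this
  have hs1 : ∀ x, Summable fun k => fderiv ℝ (term β (m + 1) k) x := by
    intro x
    refine Summable.of_norm_bounded ((cc_summable (2 ^ 1) (by positivity)).mul_left C1) ?_
    intro k
    have := hC1 k x
    rwa [norm_iteratedFDeriv_one] at this
  funext x
  set y : ℕ → ℝ := fun k => bb β m ((2 : ℝ) ^ k • x) with hy
  have hyb : ∀ k, |y k| ≤ D := by
    intro k
    have := hD ((2 : ℝ) ^ k • x)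
    rwa [norm_iteratedFDeriv_zero, Real.norm_eq_abs] at this
  -- the terms
  have hterm : ∀ k, fderiv ℝ (term β (m + 1) k) x x + (1 - (m : ℝ)) * term β (m + 1) k x
      = cc k * (((2 : ℝ) ^ k)⁻¹) ^ (m + 1) * (y k - 2 * ((2 : ℝ) ^ m)⁻¹ * y (k + 1)) := by
    intro k
    have h1 : HasFDerivAt (fun z : E => (2 : ℝ) ^ k • z)
        ((2 : ℝ) ^ k • ContinuousLinearMap.id ℝ E) x := (hasFDerivAt_id x).const_smul _
    have h2 : HasFDerivAt (fun z : E => bb β (m + 1) ((2 : ℝ) ^ k • z))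
        ((fderiv ℝ (bb β (m + 1)) ((2 : ℝ) ^ k • x)).comp
          ((2 : ℝ) ^ k • ContinuousLinearMap.id ℝ E)) x :=
      ((diff_of_smooth (bb_ok hK hβ (m + 1)).1 _).hasFDerivAt).comp x h1
    have h3 := (h2.const_mul (cc k * (((2 : ℝ) ^ k)⁻¹) ^ (m + 1))).fderiv
    have h4 : fderiv ℝ (term β (m + 1) k) x x = cc k * (((2 : ℝ) ^ k)⁻¹) ^ (m + 1)
        * fderiv ℝ (bb β (m + 1)) ((2 : ℝ) ^ k • x) ((2 : ℝ) ^ k • x) := by
      have : fderiv ℝ (term β (m + 1) k) x = _ := h3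
      rw [this]
      simp
    have h5 := B_euler m (bb_ok hK hβ m).1 ((2 : ℝ) ^ k • x)
    have h6 : (2 : ℝ) • (2 : ℝ) ^ k • x = (2 : ℝ) ^ (k + 1) • x := by
      rw [smul_smul, pow_succ']
    rw [h6] at h5
    have h7 : fderiv ℝ (bb β (m + 1)) ((2 : ℝ) ^ k • x) ((2 : ℝ) ^ k • x)
        + (1 - (m : ℝ)) * bb β (m + 1) ((2 : ℝ) ^ k • x)
        = y k - 2 * ((2 : ℝ) ^ m)⁻¹ * y (k + 1) := by
      have : R 0 (m : ℝ) (B (wt m) (bb β m)) ((2 : ℝ) ^ k • x)
        = fderiv ℝ (bb β (m + 1)) ((2 : ℝ) ^ k • x) ((2 : ℝ) ^ k • x)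
        + (1 - (m : ℝ)) * bb β (m + 1) ((2 : ℝ) ^ k • x) := by
        unfold R
        rw [sub_zero]
        rfl
      rw [← this, h5]
    rw [h4, ← h7]
    unfold term
    ring
  have hR : R 0 (m : ℝ) (gg β (m + 1)) x
      = ∑' k, cc k * (((2 : ℝ) ^ k)⁻¹) ^ (m + 1) * (y k - 2 * ((2 : ℝ) ^ m)⁻¹ * y (k + 1)) := by
    unfold R
    rw [sub_zero, hf x]
    have h8 : (∑' k, fderiv ℝ (term β (m + 1) k) x) x = ∑' k, fderiv ℝ (term β (m + 1) k) x x := by
      exact (ContinuousLinearMap.apply ℝ ℝ x).map_tsum (hs1 x)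
    have h9 : Summable fun k => fderiv ℝ (term β (m + 1) k) x x :=
      (ContinuousLinearMap.apply ℝ ℝ x).summable (hs1 x)
    unfold gg
    rw [h8, ← tsum_mul_left, ← h9.tsum_add ((hs0 x).mul_left _)]
    exact tsum_congr hterm
  rw [hR]
  -- abbreviations
  have hsy : ∀ (e : ℕ → ℝ), (∀ k, |e k| ≤ |cc k|) → ∀ z : ℕ → ℝ, (∀ k, |z k| ≤ D) →
      Summable fun k => e k * z k := by
    intro e he z hz
    refine Summable.of_norm_bounded ((cc_summable 1 zero_le_one).mul_right D) ?_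
    intro k
    rw [norm_mul, Real.norm_eq_abs, Real.norm_eq_abs, one_pow, mul_one]
    exact mul_le_mul (he k) (hz k) (abs_nonneg _) (abs_nonneg _)
  have hcle : ∀ (i k : ℕ), |cc k * (((2 : ℝ) ^ k)⁻¹) ^ i| ≤ |cc k| := by
    intro i k
    rw [abs_mul]
    refine mul_le_of_le_one_right (abs_nonneg _) ?_
    rw [abs_pow, abs_inv, abs_pow]
    refine pow_le_one₀ (by positivity) ?_
    refine inv_le_one_of_one_le₀ ?_
    exact one_le_pow₀ (by norm_num)
  have hA : Summable fun k => cc k * (((2 : ℝ) ^ k)⁻¹) ^ (m + 1) * y k :=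
    hsy _ (hcle (m + 1)) _ hyb
  have hB : Summable fun k => cc k * (((2 : ℝ) ^ k)⁻¹) ^ (m + 1) * y (k + 1) :=
    hsy _ (hcle (m + 1)) _ (fun k => hyb (k + 1))
  have hG : Summable fun k => cc k * (((2 : ℝ) ^ k)⁻¹) ^ m * y k :=
    hsy _ (hcle m) _ hyb
  have e1 : ∑' k, cc k * (((2 : ℝ) ^ k)⁻¹) ^ (m + 1) * (y k - 2 * ((2 : ℝ) ^ m)⁻¹ * y (k + 1))
      = ∑' k, cc k * (((2 : ℝ) ^ k)⁻¹) ^ (m + 1) * y k
        - 2 * ((2 : ℝ) ^ m)⁻¹ * ∑' k, cc k * (((2 : ℝ) ^ k)⁻¹) ^ (m + 1) * y (k + 1) := by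
    rw [← tsum_mul_left, ← hA.tsum_sub (hB.mul_left _)]
    exact tsum_congr fun k => by ring
  rw [e1, hA.tsum_eq_zero_add]
  show ∑' k, term β m k x = _
  have e2 : ∀ k, term β m k x = cc k * (((2 : ℝ) ^ k)⁻¹) ^ m * y k := fun k => rfl
  rw [tsum_congr e2, hG.tsum_eq_zero_add]
  have hA' := (summable_nat_add_iff 1).2 hA
  rw [← tsum_mul_left, add_sub_assoc, ← hA'.tsum_sub (hB.mul_left _)]
  congr 1
  · simp
  · refine tsum_congr fun k => ?_
    have h1 := cc_rel k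
    have h2 : (2 : ℝ) ^ (k + 1) ≠ 0 := by positivity
    have h3 : (2 : ℝ) ^ m ≠ 0 := by positivity
    have h4 : cc k = - (cc (k + 1) * (2 ^ (k + 1) - 1)) / 4 := by linarith
    have key : cc (k + 1) * (((2 : ℝ) ^ (k + 1))⁻¹) ^ m
        = cc (k + 1) * (((2 : ℝ) ^ (k + 1))⁻¹) ^ (m + 1)
          - 2 * ((2 : ℝ) ^ m)⁻¹ * (cc k * (((2 : ℝ) ^ k)⁻¹) ^ (m + 1)) := by
      rw [h4]
      have h5 : (2 : ℝ) ^ (k + 1) = 2 * 2 ^ k := pow_succ' _ _
      set t : ℝ := (2 : ℝ) ^ k with ht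
      have ht0 : t ≠ 0 := by rw [ht]; positivity
      rw [h5, inv_pow, inv_pow, inv_pow, mul_pow, mul_pow]
      field_simp
      ring
    rw [key]
    ring

end Pool.Agent.Y327.XS
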