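import Pool.Agent.Y327.XS.Fam

/-!
# Failure of uniqueness for directed X-rays inside every set with an accumulation point
-/

set_option autoImplicit false
set_option linter.unusedSectionVars false

open Set Filter Topology MeasureTheory
open scoped ContDiff

noncomputable section

namespace Pool.Agent.Y327.XS

variable {E : Type*} [NormedAddCommGroup E] [InnerProductSpace ℝ E] [FiniteDimensional ℝ E]

/-- the correction caused by the point `q` -/
def cor (β : E → ℝ) (ps : List E) (q : E) : E → ℝ :=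
  LL 0 ps (fun x => fderiv ℝ (gg β (ps.length + 1)) x q)

lemma cor_ok {K : Set E} (hKc : IsCompact K) (hK : Star K) {β : E → ℝ} (hβ : Ok K β)
    (ps : List E) (q : E) : Ok K (cor β ps q) :=
  ((gg_ok hKc hK hβ _).fd hKc.isClosed q).LL hKc.isClosed ps 0

lemma cor_small {K : Set E} (hKc : IsCompact K) (hK : Star K) {β : E → ℝ} (hβ : Ok K β)
    (ps : List E) : ∃ δ : ℝ, 0 < δ ∧ ∀ q : E, ‖q‖ < δ → ∀ j ≤ ps.length, ∀ x,
      ‖iteratedFDeriv ℝ j (cor β ps q) x‖ ≤ (1 / 2 : ℝ) ^ ps.length / 4 := by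
  classical
  set b := stdOrthonormalBasis ℝ E with hb
  set H : Fin (Module.finrank ℝ E) → E → ℝ :=
    fun i => LL 0 ps (fun x => fderiv ℝ (gg β (ps.length + 1)) x (b i)) with hH
  have hg := gg_ok hKc hK hβ (ps.length + 1)
  have hHok : ∀ i, Ok K (H i) := fun i => (hg.fd hKc.isClosed _).LL hKc.isClosed ps 0
  have hsum : ∀ q, cor β ps q = fun x => ∑ i, inner ℝ (b i) q * H i x := by
    intro q
    have h1 : (fun x => fderiv ℝ (gg β (ps.length + 1)) x q)
        = fun x => ∑ i, inner ℝ (b i) q * (fun x => fderiv ℝ (gg β (ps.length + 1)) x (b i)) x := by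
      funext x
      conv_lhs => rw [← b.sum_repr' q]
      rw [map_sum]
      refine Finset.sum_congr rfl fun i _ => ?_
      rw [map_smul, smul_eq_mul]
    unfold cor
    rw [h1, LL_sum Finset.univ ps 0 _ (fun i => smooth_fderiv_apply hg.1 (b i))]
  choose C hC0 hC using fun (i : Fin (Module.finrank ℝ E)) (j : ℕ) => (hHok i).bound hKc j
  set S : ℝ := ∑ j ∈ Finset.range (ps.length + 1), ∑ i, C i j with hS
  have hS0 : 0 ≤ S := Finset.sum_nonneg fun j _ => Finset.sum_nonneg fun i _ => hC0 i j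
  refine ⟨(1 / 2 : ℝ) ^ ps.length / 4 / (S + 1), by positivity, ?_⟩
  intro q hq j hj x
  rw [hsum q]
  have h2 : (fun x => ∑ i, inner ℝ (b i) q * H i x)
      = fun x => ∑ i, (inner ℝ (b i) q • H i) x := by
    funext x; rfl
  have h3 : iteratedFDeriv ℝ j (fun x => ∑ i, inner ℝ (b i) q * H i x) x
      = ∑ i, iteratedFDeriv ℝ j (inner ℝ (b i) q • H i) x := by
    rw [h2]
    refine iteratedFDeriv_fun_sum_apply fun i _ => ?_
    have h4 : ContDiff ℝ j (H i) := (hHok i).1.of_le (by exact_mod_cast le_top)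
    exact (h4.const_smul (inner ℝ (b i) q)).contDiffAt
  rw [h3]
  calc ‖∑ i, iteratedFDeriv ℝ j (inner ℝ (b i) q • H i) x‖
      ≤ ∑ i, ‖q‖ * C i j := by
        refine norm_sum_le_of_le _ fun i _ => ?_
        rw [iteratedFDeriv_const_smul_apply
          ((hHok i).1.of_le (by exact_mod_cast le_top)).contDiffAt, norm_smul]
        refine mul_le_mul ?_ (hC i j x) (norm_nonneg _) (norm_nonneg _)
        rw [Real.norm_eq_abs]
        refine (abs_real_inner_le_norm _ _).trans ?_
        rw [b.orthonormal.1 i, one_mul]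
    _ = ‖q‖ * ∑ i, C i j := by rw [Finset.mul_sum]
    _ ≤ ‖q‖ * S := by
        gcongr
        exact Finset.single_le_sum (f := fun j => ∑ i, C i j)
          (fun j _ => Finset.sum_nonneg fun i _ => hC0 i j)
          (Finset.mem_range.2 (Nat.lt_succ_of_le hj))
    _ ≤ ((1 / 2 : ℝ) ^ ps.length / 4 / (S + 1)) * (S + 1) := by
        refine mul_le_mul hq.le (by linarith) hS0 (by positivity)
    _ = (1 / 2 : ℝ) ^ ps.length / 4 := by
        field_simp

/-- the core: the accumulation point is the origin -/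
theorem core {K : Set E} (hKc : IsCompact K) (hK : Star K) {β : E → ℝ} (hβ : Ok K β)
    (x₀ : E) (h0 : 1 ≤ gg β 0 x₀) (P : Set E)
    (hP : ∀ δ : ℝ, 0 < δ → ∃ q ∈ P, q ≠ 0 ∧ ‖q‖ < δ) :
    ∃ (f : E → ℝ) (P' : Set E), P' ⊆ P ∧ P'.Infinite ∧ Ok K f ∧ f x₀ ≠ 0 ∧
      ∀ p ∈ insert 0 P', ∀ u : E, ‖u‖ = 1 → ∫ t in Ioi (0 : ℝ), f (p + t • u) = 0 := by
  classical
  have hKcl := hKc.isClosed
  choose δ hδ0 hδ using fun ps => cor_small hKc hK hβ ps
  -- the tolerance also makes the points distinct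
  set τ : List E → ℝ := fun ps => min (δ ps) (match ps with | [] => 1 | (q :: _) => if q = 0 then 1 else ‖q‖)
    with hτ
  have hτ0 : ∀ ps, 0 < τ ps := by
    intro ps
    simp only [hτ]
    refine lt_min (hδ0 ps) ?_
    cases ps with
    | nil => exact one_pos
    | cons q ps =>
      by_cases h : q = 0
      · simp [h]
      · simpa [h] using h
  choose nx hnx1 hnx2 hnx3 using fun ps => hP (τ ps) (hτ0 ps)
  let st : ℕ → List E := fun m => Nat.rec [] (fun _ ps => nx ps :: ps) m
  have st_succ : ∀ m, st (m + 1) = nx (st m) :: st m := fun m => rfl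
  have st_len : ∀ m, (st m).length = m := by
    intro m
    induction m with
    | zero => rfl
    | succ m ih => rw [st_succ, List.length_cons, ih]
  set p : ℕ → E := fun m => nx (st m) with hp
  have hmem : ∀ m i, i < m → p i ∈ st m := by
    intro m
    induction m with
    | zero => intro i hi; omega
    | succ m ih =>
      intro i hi
      rw [st_succ, List.mem_cons]
      rcases Nat.lt_succ_iff_lt_or_eq.1 hi with h | h
      · exact Or.inr (ih i h)
      · subst h; exact Or.inl rfl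
  have hdec : ∀ m, ‖p (m + 1)‖ < ‖p m‖ := by
    intro m
    have h1 := hnx3 (st (m + 1))
    have h2 : τ (st (m + 1)) ≤ ‖nx (st m)‖ := by
      simp only [hτ, st_succ]
      refine (min_le_right _ _).trans ?_
      simp [hnx2 (st m)]
    exact h1.trans_le h2
  have hanti : StrictAnti fun m => ‖p m‖ := strictAnti_nat_of_succ_lt hdec
  have hinj : Function.Injective p := fun a b hab => hanti.injective (by simp [hab])
  -- the corrections
  set d : ℕ → E → ℝ := fun m => cor β (st m) (p m) with hd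
  have hdok : ∀ m, Ok K (d m) := fun m => cor_ok hKc hK hβ _ _
  have hdb : ∀ m j, j ≤ m → ∀ x, ‖iteratedFDeriv ℝ j (d m) x‖ ≤ (1 / 2 : ℝ) ^ m / 4 := by
    intro m j hj x
    have h1 := hδ (st m) (p m) ((hnx3 (st m)).trans_le (min_le_left _ _)) j
      (by rw [st_len]; exact hj) x
    rwa [st_len] at h1
  have hd0 : ∀ m x, |d m x| ≤ (1 / 2 : ℝ) ^ m / 4 := by
    intro m x
    have := hdb m 0 (Nat.zero_le _) x
    rwa [norm_iteratedFDeriv_zero, Real.norm_eq_abs] at this
  have hsumm : Summable fun m : ℕ => (1 / 2 : ℝ) ^ m / 4 :=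
    summable_geometric_two.div_const 4
  have htot : ∑' m : ℕ, (1 / 2 : ℝ) ^ m / 4 = 1 / 2 := by
    rw [tsum_div_const, tsum_geometric_two]; norm_num
  have hds : ∀ x, Summable fun m => d m x := fun x =>
    Summable.of_norm_bounded hsumm fun m => by
      rw [Real.norm_eq_abs]; exact hd0 m x
  set f : E → ℝ := fun x => gg β 0 x - ∑' m, d m x with hf
  have hfs : ContDiff ℝ ∞ f := by
    refine (gg_smooth hKc hK hβ 0).sub ?_
    refine contDiff_tsum_of_eventually (v := fun _ m => (1 / 2 : ℝ) ^ m / 4)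
      (fun m => (hdok m).1) (fun _ _ => hsumm) ?_
    intro k _
    rw [Nat.cofinite_eq_atTop]
    filter_upwards [eventually_ge_atTop k] with m hm x
    exact hdb m k hm x
  have hfok : Ok K f := by
    refine ⟨hfs, fun x hx => ?_⟩
    have h1 : ∀ m, d m x = 0 := fun m => (hdok m).2 x hx
    simp [hf, (gg_ok hKc hK hβ 0).2 x hx, h1]
  -- the partial functions
  set F : ℕ → E → ℝ := fun m => LL 0 (st m) (gg β m) with hF
  have hstep : ∀ m x, F (m + 1) x = F m x - d m x := by
    intro m x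
    have h1 : gg β m = R 0 ((st m).length : ℝ) (gg β ((st m).length + 1)) := by
      rw [st_len]; exact gg_rel hKc hK hβ m
    have h2 := LL_step (st m) (gg β m) (gg β ((st m).length + 1))
      (gg_smooth hKc hK hβ _) h1 (p m) x
    have h3 : F (m + 1) x = LL 0 (p m :: st m) (gg β ((st m).length + 1)) x := by
      simp only [hF, st_succ, st_len]
      rfl
    rw [h3, h2]
    simp only [hF, hd, cor]
  have hFsum : ∀ m x, F m x = gg β 0 x - ∑ i ∈ Finset.range m, d i x := by
    intro m x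
    induction m with
    | zero => simp [hF]; rfl
    | succ m ih => rw [hstep, ih, Finset.sum_range_succ]; ring
  have hFlim : ∀ x, Tendsto (fun m => F m x) atTop (𝓝 (f x)) := by
    intro x
    simp only [hFsum]
    exact tendsto_const_nhds.sub (hds x).hasSum.tendsto_sum_nat
  have hFok : ∀ m, Ok K (F m) := fun m => (gg_ok hKc hK hβ m).LL hKcl _ _
  obtain ⟨G, hG0, hG⟩ := (gg_ok hKc hK hβ 0).bound hKc 0
  have hFb : ∀ m x, |F m x| ≤ G + 1 / 2 := by
    intro m x
    rw [hFsum]
    have h1 := hG x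
    rw [norm_iteratedFDeriv_zero, Real.norm_eq_abs] at h1
    have h2 : |∑ i ∈ Finset.range m, d i x| ≤ 1 / 2 := by
      rw [← htot]
      refine (Finset.abs_sum_le_sum_abs _ _).trans ?_
      refine (Finset.sum_le_sum fun i _ => hd0 i x).trans ?_
      exact hsumm.sum_le_tsum _ (fun i _ => by positivity)
    exact (abs_sub _ _).trans (add_le_add h1 h2)
  -- bounded support
  obtain ⟨r, hr⟩ := hKc.isBounded.subset_closedBall 0
  have hray : ∀ (q u : E), ‖u‖ = 1 → (∀ᶠ m in atTop, ∫ t in Ioi (0 : ℝ), F m (q + t • u) = 0) →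
      ∫ t in Ioi (0 : ℝ), f (q + t • u) = 0 := by
    intro q u hu hev
    set T : ℝ := ‖q‖ + |r| + 1 with hT
    have hz : ∀ t : ℝ, T ≤ t → q + t • u ∉ K := by
      intro t ht hmem
      have h1 := hr hmem
      rw [mem_closedBall_zero_iff] at h1
      have h2 : ‖t • u‖ ≤ ‖q + t • u‖ + ‖q‖ := by
        have : t • u = (q + t • u) - q := by abel
        rw [this]
        exact (norm_sub_le _ _).trans (by simp)
      rw [norm_smul, hu, mul_one, Real.norm_eq_abs] at h2
      have h3 := le_abs_self t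
      have h4 := le_abs_self r
      linarith
    have hlim : Tendsto (fun m => ∫ t in Ioi (0 : ℝ), F m (q + t • u)) atTop
        (𝓝 (∫ t in Ioi (0 : ℝ), f (q + t • u))) := by
      refine tendsto_integral_of_dominated_convergence
        (fun t => (Iic T).indicator (fun _ => G + 1 / 2) t) ?_ ?_ ?_ ?_
      · intro m
        exact ((hFok m).1.continuous.comp (by fun_prop : Continuous fun t : ℝ => q + t • u)).aestronglyMeasurable
      · rw [← IntegrableOn, integrableOn_indicator_iff measurableSet_Iic]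
        rw [inter_comm, Ioi_inter_Iic]
        exact integrableOn_const (by simp) (by simp)
      · intro m
        refine (ae_restrict_mem measurableSet_Ioi).mono fun t ht => ?_
        by_cases h : t ≤ T
        · rw [indicator_of_mem (by exact h), Real.norm_eq_abs]
          exact hFb m _
        · rw [(hFok m).2 _ (hz t (not_le.1 h).le), norm_zero]
          exact indicator_nonneg (fun _ _ => by positivity) _
      · exact Eventually.of_forall fun t => hFlim _
    exact tendsto_nhds_unique hlim (tendsto_const_nhds.congr' (hev.mono fun m hm => hm.symm))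
  refine ⟨f, range p, ?_, infinite_range_of_injective hinj, hfok, ?_, ?_⟩
  · rintro _ ⟨m, rfl⟩
    exact hnx1 _
  · have h1 : |∑' m, d m x₀| ≤ 1 / 2 := by
      rw [← htot]
      exact tsum_of_norm_bounded hsumm.hasSum fun m => by
        rw [Real.norm_eq_abs]; exact hd0 m x₀
    have h2 := (abs_le.1 h1).2
    have : 0 < f x₀ := by
      show 0 < gg β 0 x₀ - ∑' m, d m x₀
      linarith
    exact this.ne'
  · intro q hq u hu
    rcases mem_insert_iff.1 hq with rfl | ⟨i, rfl⟩
    · refine hray 0 u hu (Eventually.of_forall fun m => ?_)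
      have h1 : gg β m = R 0 (0 + ((st m).length : ℝ)) (gg β (m + 1)) := by
        rw [st_len, zero_add]; exact gg_rel hKc hK hβ m
      have h2 := ray_LL_zero hKcl hKc.isBounded (st m) (gg_ok hKc hK hβ (m + 1)) 0 u hu
      rw [← h1] at h2
      exact h2
    · refine hray _ u hu ?_
      filter_upwards [eventually_gt_atTop i] with m hm
      exact ray_LL hKcl hKc.isBounded (st m) (gg_ok hKc hK hβ m) _ (hmem m i hm) u hu

/-- a concrete family -/
lemma start (x₀ : E) (hx₀ : x₀ ≠ 0) (ρ : ℝ) (hρ : 0 < ρ) :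
    ∃ (K : Set E) (β : E → ℝ), IsCompact K ∧ Star K ∧ Ok K β ∧ 1 ≤ gg β 0 x₀ ∧
      ∀ x ∈ K, ∃ t ∈ Icc (0 : ℝ) 1, ∃ y ∈ Metric.closedBall x₀ ρ, x = t • y := by
  set ρ' : ℝ := min ρ (‖x₀‖ / 2) with hρ'
  have hx : 0 < ‖x₀‖ := norm_pos_iff.2 hx₀
  have hρ0 : 0 < ρ' := lt_min hρ (by linarith)
  set K : Set E := (fun z : ℝ × E => z.1 • z.2) '' (Icc (0 : ℝ) 1 ×ˢ Metric.closedBall x₀ ρ')
    with hK
  have hKc : IsCompact K :=
    (isCompact_Icc.prod (isCompact_closedBall x₀ ρ')).image (by fun_prop)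
  have hstar : Star K := by
    intro x hx s hs hmem
    apply hx
    obtain ⟨⟨t, y⟩, ⟨ht, hy⟩, h⟩ := hmem
    refine ⟨(s⁻¹ * t, y), ⟨⟨?_, ?_⟩, hy⟩, ?_⟩
    · have := ht.1
      have hs0 : 0 < s := by linarith
      positivity
    · have h1 := ht.2
      have h2 := ht.1
      have h3 : s⁻¹ ≤ 1 := inv_le_one_of_one_le₀ hs
      have h4 : 0 ≤ s⁻¹ := by positivity
      simp only at h1 h2 ⊢
      nlinarith
    · simp only at h ⊢
      rw [mul_smul, h, smul_smul, inv_mul_cancel₀ (by linarith), one_smul]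
  let bp : ContDiffBump x₀ := ⟨ρ' / 2, ρ', by positivity, by linarith⟩
  have hbz : ∀ x, x ∉ Metric.closedBall x₀ ρ' → bp x = 0 := by
    intro x hx
    apply bp.zero_of_le_dist
    rw [Metric.mem_closedBall, not_le] at hx
    exact hx.le
  have hβ : Ok K (fun x => bp x) := by
    refine ⟨bp.contDiff, fun x hx => hbz x fun hmem => hx ?_⟩
    exact ⟨(1, x), ⟨⟨zero_le_one, le_rfl⟩, hmem⟩, by simp⟩
  refine ⟨K, fun x => bp x, hKc, hstar, hβ, ?_, ?_⟩
  · have h1 : ∀ k, k ≠ 0 → term (fun x => bp x) 0 k x₀ = 0 := by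
      intro k hk
      unfold term
      have : bb (fun x => bp x) 0 ((2 : ℝ) ^ k • x₀) = 0 := by
        show bp ((2 : ℝ) ^ k • x₀) = 0
        apply hbz
        rw [Metric.mem_closedBall, not_le, dist_eq_norm]
        have h2 : (2 : ℝ) ^ k • x₀ - x₀ = ((2 : ℝ) ^ k - 1) • x₀ := by
          rw [sub_smul, one_smul]
        have h3 : (2 : ℝ) ≤ 2 ^ k := by
          calc (2 : ℝ) = 2 ^ 1 := by norm_num
            _ ≤ 2 ^ k := pow_le_pow_right₀ (by norm_num) (by omega)
        rw [h2, norm_smul, Real.norm_eq_abs, abs_of_pos (by linarith)]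
        have h4 : ρ' ≤ ‖x₀‖ / 2 := min_le_right _ _
        nlinarith
      rw [this, mul_zero]
    unfold gg
    rw [tsum_eq_single 0 h1]
    have : bp x₀ = 1 := bp.one_of_mem_closedBall (by simp [bp]; positivity)
    simp [term, cc, bb, this]
  · rintro _ ⟨⟨t, y⟩, ⟨ht, hy⟩, rfl⟩
    exact ⟨t, ht, y, Metric.closedBall_subset_closedBall (min_le_left _ _) hy, rfl⟩

/-- the main theorem in an arbitrary finite dimensional Euclidean space -/
theorem main (P : Set E) (a : E) (ha : AccPt a (𝓟 P)) (c : E) (ρ : ℝ) (hρ : 0 < ρ) :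
    ∃ (f : E → ℝ) (P' : Set E), P' ⊆ P ∧ P'.Infinite ∧ ContDiff ℝ ∞ f ∧ HasCompactSupport f ∧
      (∀ x, f x ≠ 0 → x ∈ convexHull ℝ (insert a (Metric.closedBall c ρ))) ∧ (∃ x, f x ≠ 0) ∧
      ∀ p ∈ insert a P', ∀ u : E, ‖u‖ = 1 → ∫ t in Ioi (0 : ℝ), f (p + t • u) = 0 := by
  -- points of `P` near `a`
  have hacc : ∀ δ : ℝ, 0 < δ → ∃ q ∈ P, q ≠ a ∧ ‖q - a‖ < δ := by
    intro δ hδ
    obtain ⟨q, ⟨hq1, hq2⟩, hq3⟩ := accPt_iff_nhds.1 ha (Metric.ball a δ) (Metric.ball_mem_nhds a hδ)
    exact ⟨q, hq2, hq3, by rwa [← mem_ball_iff_norm]⟩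
  -- a nonzero centre
  obtain ⟨x₀, hx₀, ρ₀, hρ₀, hsub⟩ : ∃ x₀ : E, x₀ ≠ 0 ∧ ∃ ρ₀ : ℝ, 0 < ρ₀ ∧
      Metric.closedBall x₀ ρ₀ ⊆ Metric.closedBall (c - a) ρ := by
    by_cases h : c - a = 0
    · obtain ⟨q, _, hq2, hq3⟩ := hacc (ρ / 2) (by linarith)
      refine ⟨q - a, sub_ne_zero.2 hq2, ρ / 2, by linarith, ?_⟩
      rw [h]
      refine Metric.closedBall_subset_closedBall' ?_
      rw [dist_zero_right]
      linarith
    · exact ⟨c - a, h, ρ, hρ, Subset.rfl⟩
  obtain ⟨K, β, hKc, hK, hβ, h0, hKsub⟩ := start x₀ hx₀ ρ₀ hρ₀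
  obtain ⟨f, P', hP'1, hP'2, hf, hfne, hray⟩ := core hKc hK hβ x₀ h0 ((fun x => x - a) '' P) (by
    intro δ hδ
    obtain ⟨q, hq1, hq2, hq3⟩ := hacc δ hδ
    exact ⟨q - a, ⟨q, hq1, rfl⟩, sub_ne_zero.2 hq2, hq3⟩)
  have hsm : ContDiff ℝ ∞ fun x => f (x - a) := hf.1.comp (contDiff_id.sub contDiff_const)
  refine ⟨fun x => f (x - a), (fun x => x + a) '' P', ?_, ?_, hsm, ?_, ?_, ⟨x₀ + a, ?_⟩, ?_⟩
  · rintro _ ⟨q, hq, rfl⟩
    obtain ⟨y, hy, rfl⟩ := hP'1 hq
    simpa using hy
  · exact hP'2.image (add_left_injective a).injOn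
  · refine HasCompactSupport.of_support_subset_isCompact
      (hKc.image (by fun_prop : Continuous fun x : E => x + a)) ?_
    intro x hx
    refine ⟨x - a, ?_, by simp⟩
    by_contra hcon
    exact hx (hf.2 _ hcon)
  · intro x hx
    have hxK : x - a ∈ K := by
      by_contra hcon
      exact hx (hf.2 _ hcon)
    obtain ⟨t, ht, y, hy, hxy⟩ := hKsub _ hxK
    have hy' : y + a ∈ Metric.closedBall c ρ := by
      have := hsub hy
      rw [Metric.mem_closedBall, dist_eq_norm] at this ⊢
      have e : y + a - c = y - (c - a) := by abel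
      rwa [e]
    have e2 : x = (1 - t) • a + t • (y + a) := by
      have : x = t • y + a := by rw [← hxy]; abel
      rw [this, smul_add, sub_smul, one_smul]
      abel
    rw [e2]
    exact (convex_convexHull ℝ _) (subset_convexHull ℝ _ (mem_insert _ _))
      (subset_convexHull ℝ _ (mem_insert_of_mem _ hy')) (by linarith [ht.2]) ht.1 (by ring)
  · simpa using hfne
  · intro p hp u hu
    have h1 : p - a ∈ insert 0 P' := by
      rcases mem_insert_iff.1 hp with rfl | ⟨q, hq, rfl⟩
      · simp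
      · simp only [add_sub_cancel_right]
        exact mem_insert_of_mem _ hq
    have h2 := hray _ h1 u hu
    refine Eq.trans ?_ h2
    refine integral_congr_ae (Eventually.of_forall fun t => ?_)
    show f (p + t • u - a) = f (p - a + t • u)
    congr 1
    abel

end Pool.Agent.Y327.XS
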