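import Mathlib

/-!
# The operators `(x - q)·∇ + 1 - a` and their products
-/

set_option autoImplicit false

open Set Filter Topology MeasureTheory
open scoped ContDiff

noncomputable section

namespace Pool.Agent.Y327.XS

variable {E : Type*} [NormedAddCommGroup E] [InnerProductSpace ℝ E]

/-- the operator `(x - q)·∇ + (1 - a)` -/
def R (q : E) (a : ℝ) (g : E → ℝ) : E → ℝ := fun x => fderiv ℝ g x (x - q) + (1 - a) * g x

/-- the products `(E_{p_0} - a) (E_{p_1} - a - 1) ... ` (the list is written backwards) -/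
def LL (a : ℝ) : List E → (E → ℝ) → (E → ℝ)
  | [] => fun g => g
  | q :: ps => fun g => LL a ps (R q (a + ps.length) g)

lemma smooth_fderiv {g : E → ℝ} (hg : ContDiff ℝ ∞ g) : ContDiff ℝ ∞ (fderiv ℝ g) :=
  hg.fderiv_right (m := ∞) (by simp)

lemma smooth_fderiv_apply {g : E → ℝ} (hg : ContDiff ℝ ∞ g) (v : E) :
    ContDiff ℝ ∞ (fun x => fderiv ℝ g x v) :=
  (smooth_fderiv hg).clm_apply contDiff_const

lemma diff_of_smooth {g : E → ℝ} (hg : ContDiff ℝ ∞ g) : Differentiable ℝ g :=
  hg.differentiable (by simp)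

lemma R_smooth {g : E → ℝ} (hg : ContDiff ℝ ∞ g) (q : E) (a : ℝ) : ContDiff ℝ ∞ (R q a g) := by
  unfold R
  exact ((smooth_fderiv hg).clm_apply (contDiff_id.sub contDiff_const)).add
    (contDiff_const.mul hg)

lemma LL_smooth (ps : List E) : ∀ (a : ℝ) {g : E → ℝ}, ContDiff ℝ ∞ g →
    ContDiff ℝ ∞ (LL a ps g) := by
  induction ps with
  | nil => intro a g hg; exact hg
  | cons q ps ih => intro a g hg; exact ih a (R_smooth hg q _)

lemma R_swap {g : E → ℝ} (hg : ContDiff ℝ ∞ g) (p q : E) (a : ℝ) :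
    R p a (R q (a + 1) g) = R q a (R p (a + 1) g) := by
  have key : ∀ (q : E) (b : ℝ) (x v : E), fderiv ℝ (R q b g) x v
      = fderiv ℝ (fderiv ℝ g) x v (x - q) + (2 - b) * fderiv ℝ g x v := by
    intro q b x v
    have h1 : HasFDerivAt (fderiv ℝ g) (fderiv ℝ (fderiv ℝ g) x) x :=
      ((smooth_fderiv hg).differentiable (by simp) x).hasFDerivAt
    have h2 : HasFDerivAt (fun x : E => x - q) (ContinuousLinearMap.id ℝ E) x :=
      (hasFDerivAt_id x).sub_const q
    have h3 := h1.clm_apply h2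
    have h4 : HasFDerivAt g (fderiv ℝ g x) x := (diff_of_smooth hg x).hasFDerivAt
    have h5 := h3.add (h4.const_mul (1 - b))
    have h6 : fderiv ℝ (R q b g) x = _ := h5.fderiv
    rw [h6]
    simp
    ring
  have hsymm : ∀ x v w, fderiv ℝ (fderiv ℝ g) x v w = fderiv ℝ (fderiv ℝ g) x w v := by
    intro x v w
    have := (hg.contDiffAt (x := x)).isSymmSndFDerivAt (by simpa using (ENat.LEInfty.out : (2 : WithTop ℕ∞) ≤ ∞))
    exact this v w
  funext x
  show fderiv ℝ (R q (a + 1) g) x (x - p) + (1 - a) * (R q (a + 1) g x)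
    = fderiv ℝ (R p (a + 1) g) x (x - q) + (1 - a) * (R p (a + 1) g x)
  rw [key, key, hsymm x (x - p) (x - q)]
  unfold R
  ring

lemma LL_comm (ps : List E) : ∀ (a : ℝ) (q : E) {g : E → ℝ}, ContDiff ℝ ∞ g →
    LL a ps (R q (a + ps.length) g) = R q a (LL (a + 1) ps g) := by
  induction ps with
  | nil => intro a q g hg; simp [LL]
  | cons p ps ih =>
    intro a q g hg
    have h1 : LL a (p :: ps) (R q (a + (p :: ps).length) g)
        = LL a ps (R p (a + ps.length) (R q ((a + ps.length) + 1) g)) := by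
      show LL a ps (R p (a + ps.length) (R q (a + (p :: ps).length) g)) = _
      congr 3
      push_cast [List.length_cons]
      ring
    rw [h1, R_swap hg, ih a q (R_smooth hg p _)]
    congr 1
    show LL (a + 1) ps (R p (a + ps.length + 1) g) = LL (a + 1) ps (R p (a + 1 + ps.length) g)
    congr 2
    ring

/-- smooth and zero outside `K` -/
def Ok (K : Set E) (g : E → ℝ) : Prop := ContDiff ℝ ∞ g ∧ ∀ x, x ∉ K → g x = 0

lemma Ok.fderiv_zero {K : Set E} (hK : IsClosed K) {g : E → ℝ} (hg : Ok K g) {x : E}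
    (hx : x ∉ K) : fderiv ℝ g x = 0 := by
  have h : g =ᶠ[𝓝 x] fun _ => (0 : ℝ) := by
    filter_upwards [hK.isOpen_compl.mem_nhds hx] with y hy
    exact hg.2 y hy
  rw [h.fderiv_eq]
  simp

lemma Ok.fd {K : Set E} (hK : IsClosed K) {g : E → ℝ} (hg : Ok K g) (v : E) :
    Ok K (fun x => fderiv ℝ g x v) :=
  ⟨smooth_fderiv_apply hg.1 v, fun x hx => by simp [hg.fderiv_zero hK hx]⟩

lemma Ok.R {K : Set E} (hK : IsClosed K) {g : E → ℝ} (hg : Ok K g) (q : E) (a : ℝ) :
    Ok K (R q a g) :=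
  ⟨R_smooth hg.1 q a, fun x hx => by simp [XS.R, hg.fderiv_zero hK hx, hg.2 x hx]⟩

lemma Ok.LL {K : Set E} (hK : IsClosed K) (ps : List E) : ∀ (a : ℝ) {g : E → ℝ}, Ok K g →
    Ok K (LL a ps g) := by
  induction ps with
  | nil => intro a g hg; exact hg
  | cons q ps ih => intro a g hg; exact ih a (hg.R hK q _)

/-! ### linearity -/

lemma R_add {g h : E → ℝ} (hg : ContDiff ℝ ∞ g) (hh : ContDiff ℝ ∞ h) (q : E) (a : ℝ) :
    R q a (fun x => g x + h x) = fun x => R q a g x + R q a h x := by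
  funext x
  unfold R
  have : fderiv ℝ (fun x => g x + h x) x = fderiv ℝ g x + fderiv ℝ h x :=
    fderiv_fun_add (diff_of_smooth hg x) (diff_of_smooth hh x)
  rw [this]
  simp
  ring

lemma R_smul {g : E → ℝ} (hg : ContDiff ℝ ∞ g) (c : ℝ) (q : E) (a : ℝ) :
    R q a (fun x => c * g x) = fun x => c * R q a g x := by
  funext x
  unfold R
  have : fderiv ℝ (fun x => c * g x) x = c • fderiv ℝ g x :=
    fderiv_const_mul (diff_of_smooth hg x) c
  rw [this]
  simp
  ring

lemma LL_add (ps : List E) : ∀ (a : ℝ) {g h : E → ℝ}, ContDiff ℝ ∞ g → ContDiff ℝ ∞ h →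
    LL a ps (fun x => g x + h x) = fun x => LL a ps g x + LL a ps h x := by
  induction ps with
  | nil => intro a g h hg hh; rfl
  | cons q ps ih =>
    intro a g h hg hh
    show LL a ps (R q _ (fun x => g x + h x)) = _
    rw [R_add hg hh, ih a (R_smooth hg q _) (R_smooth hh q _)]
    rfl

lemma LL_smul (ps : List E) : ∀ (a : ℝ) {g : E → ℝ}, ContDiff ℝ ∞ g → ∀ c : ℝ,
    LL a ps (fun x => c * g x) = fun x => c * LL a ps g x := by
  induction ps with
  | nil => intro a g hg c; rfl
  | cons q ps ih =>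
    intro a g hg c
    show LL a ps (R q _ (fun x => c * g x)) = _
    rw [R_smul hg, ih a (R_smooth hg q _)]
    rfl

lemma LL_sum {ι : Type*} (s : Finset ι) (ps : List E) (a : ℝ) (g : ι → E → ℝ)
    (hg : ∀ i, ContDiff ℝ ∞ (g i)) (c : ι → ℝ) :
    LL a ps (fun x => ∑ i ∈ s, c i * g i x) = fun x => ∑ i ∈ s, c i * LL a ps (g i) x := by
  classical
  induction s using Finset.induction_on with
  | empty =>
    have h0 : (fun x : E => ∑ i ∈ (∅ : Finset ι), c i * g i x)
        = fun x => (0 : ℝ) * (fun _ : E => (0 : ℝ)) x := by funext x; simp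
    rw [h0, LL_smul ps a contDiff_const]
    funext x
    simp
  | insert i s hi ih =>
    have h1 : (fun x : E => ∑ j ∈ insert i s, c j * g j x)
        = fun x => (c i * g i x) + ∑ j ∈ s, c j * g j x := by
      funext x; rw [Finset.sum_insert hi]
    rw [h1, LL_add ps a (contDiff_const.mul (hg i))
      (ContDiff.sum fun j _ => contDiff_const.mul (hg j)), LL_smul ps a (hg i), ih]
    funext x
    rw [Finset.sum_insert hi]

/-- the step: replacing one copy of the origin by the point `q` -/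
lemma LL_step (ps : List E) (g g' : E → ℝ) (hg' : ContDiff ℝ ∞ g')
    (h : g = R 0 (ps.length : ℝ) g') (q : E) (x : E) :
    LL 0 (q :: ps) g' x = LL 0 ps g x - LL 0 ps (fun y => fderiv ℝ g' y q) x := by
  have h1 : R q (0 + (ps.length : ℝ)) g'
      = fun y => g y + (-1) * (fun y => fderiv ℝ g' y q) y := by
    funext y
    rw [h]
    unfold R
    simp only [sub_zero, map_sub, zero_add]
    ring
  have h2 : LL 0 (q :: ps) g' = LL 0 ps (R q (0 + (ps.length : ℝ)) g') := rfl
  have hgs : ContDiff ℝ ∞ g := by rw [h]; exact R_smooth hg' _ _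
  rw [h2, h1, LL_add ps 0 hgs (contDiff_const.mul (smooth_fderiv_apply hg' q)),
    LL_smul ps 0 (smooth_fderiv_apply hg' q)]
  ring

/-! ### the divergent beam transform -/

/-- basic vanishing -/
lemma ray_zero {K : Set E} (hKc : IsClosed K) (hK : Bornology.IsBounded K) {h : E → ℝ}
    (hh : Ok K h) (p u : E) (hu : ‖u‖ = 1) :
    ∫ t in Ioi (0 : ℝ), R p 0 h (p + t • u) = 0 := by
  obtain ⟨r, hr⟩ := hK.subset_closedBall 0
  set T : ℝ := ‖p‖ + |r| + 1 with hT
  have hTpos : 0 < T := by positivity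
  have hz : ∀ t : ℝ, T ≤ t → p + t • u ∉ K := by
    intro t ht hmem
    have h1 := hr hmem
    rw [mem_closedBall_zero_iff] at h1
    have h2 : ‖t • u‖ ≤ ‖p + t • u‖ + ‖p‖ := by
      have : t • u = (p + t • u) - p := by abel
      rw [this]
      exact (norm_sub_le _ _).trans (by simp)
    rw [norm_smul, hu, mul_one, Real.norm_eq_abs] at h2
    have h3 := le_abs_self t
    have h4 := le_abs_self r
    linarith
  have hd : ∀ t ∈ Ici (0 : ℝ), HasDerivAt (fun t : ℝ => t * h (p + t • u))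
      (R p 0 h (p + t • u)) t := by
    intro t _
    have h1 : HasDerivAt (fun t : ℝ => p + t • u) u t := by
      simpa using ((hasDerivAt_id t).smul_const u).const_add p
    have h2 : HasDerivAt (fun t : ℝ => h (p + t • u)) (fderiv ℝ h (p + t • u) u) t :=
      ((diff_of_smooth hh.1 _).hasFDerivAt).comp_hasDerivAt t h1
    have h3 := (hasDerivAt_id t).mul h2
    refine h3.congr_deriv ?_
    unfold R
    simp
    ring
  have hint : IntegrableOn (fun t : ℝ => R p 0 h (p + t • u)) (Ioi 0) := by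
    have hcont : Continuous (fun t : ℝ => R p 0 h (p + t • u)) :=
      (R_smooth hh.1 p 0).continuous.comp (by fun_prop)
    have h1 : IntegrableOn (fun t : ℝ => R p 0 h (p + t • u)) (Icc 0 T) :=
      hcont.continuousOn.integrableOn_Icc
    refine IntegrableOn.of_forall_sdiff_eq_zero h1 measurableSet_Ioi ?_
    intro t ht
    have : T ≤ t := by
      by_contra hcon
      exact ht.2 ⟨le_of_lt ht.1, (not_le.1 hcon).le⟩
    exact (hh.R hKc p 0).2 _ (hz t this)
  have hlim : Tendsto (fun t : ℝ => t * h (p + t • u)) atTop (𝓝 0) := by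
    refine tendsto_const_nhds.congr' ?_
    filter_upwards [eventually_ge_atTop T] with t ht
    rw [hh.2 _ (hz t ht), mul_zero]
  rw [integral_Ioi_of_hasDerivAt_of_tendsto' hd hint hlim]
  simp

lemma ray_LL {K : Set E} (hKc : IsClosed K) (hK : Bornology.IsBounded K) (ps : List E) :
    ∀ {g : E → ℝ}, Ok K g → ∀ p ∈ ps, ∀ u : E, ‖u‖ = 1 →
      ∫ t in Ioi (0 : ℝ), LL 0 ps g (p + t • u) = 0 := by
  induction ps with
  | nil => intro g hg p hp; simp at hp
  | cons q ps ih =>
    intro g hg p hp u hu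
    rcases List.mem_cons.1 hp with rfl | hp
    · have h1 : LL 0 (p :: ps) g = R p 0 (LL (0 + 1) ps g) := LL_comm ps 0 p hg.1
      rw [h1]
      exact ray_zero hKc hK (hg.LL hKc ps _) p u hu
    · exact ih (hg.R hKc q _) p hp u hu

lemma ray_LL_zero {K : Set E} (hKc : IsClosed K) (hK : Bornology.IsBounded K) (ps : List E)
    {g : E → ℝ} (hg : Ok K g) (q : E) (u : E) (hu : ‖u‖ = 1) :
    ∫ t in Ioi (0 : ℝ), LL 0 ps (R q (0 + ps.length) g) (q + t • u) = 0 := by
  rw [LL_comm ps 0 q hg.1]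
  exact ray_zero hKc hK (hg.LL hKc ps _) q u hu

end Pool.Agent.Y327.XS
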